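import Pool.Agent.Helper59.PWE.Steps
import Pool.Agent.Helper59.PWA.Main

/-! # Sharp polynomial Wolff axioms for projections of polynomial sublevel containers -/

set_option autoImplicit false

namespace Pool.Agent.Helper59.PWE

open MvPolynomial MeasureTheory Set
open scoped ENNReal

variable {m q : ℕ}

theorem emb_add (s : ℝ) (x a : Fin m → ℝ) (p : Fin q → ℝ) :
    emb q s x + Sum.elim a p = Sum.elim (a + s • x) p := by
  funext i
  rcases i with i | i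
  · simp only [emb, Pi.add_apply, Sum.elim_inl]
    ring
  · simp only [emb, Pi.add_apply, Sum.elim_inr, Pi.zero_apply]
    ring

/-- step 1: the value at infinity -/
theorem step1 (t : Fin (m + 1) → ℝ) (Ψ : Fin (m + 1) → MvPolynomial (Fin m ⊕ Fin q) ℝ)
    (h0 : ∀ l P, 0 ≤ eval P (Ψ l)) (κ r R : ℝ) (hκ : 0 < κ) (hr : 0 ≤ r)
    (hκR : κ * ((m + q : ℕ) * R ^ 2) ≤ 1 / 2) (hrR : r * ((m + q : ℕ) * R) ≤ 1 / 4)
    (hrκ : (m + q : ℕ) * r ^ 2 ≤ κ)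
    (B : Set (Fin m ⊕ Fin q → ℝ)) (hBm : MeasurableSet B) (hB : ∀ α ∈ B, ∀ i, |α i| ≤ r) :
    volume B * volume {x : Fin m → ℝ | ∃ y : Fin m ⊕ Fin q → ℝ, (∀ i, |y i| ≤ R) ∧
      ∀ l, eval (emb q (t l) x + y) (Ψ l) ≤ 1} ≤
      ∫⁻ x : Fin m → ℝ, ∫⁻ y : Fin m ⊕ Fin q → ℝ, Ff Ψ κ t (m + 2) B (y, x) := by
  have hcard : Fintype.card (Fin m ⊕ Fin q) = m + q := by
    rw [Fintype.card_sum, Fintype.card_fin, Fintype.card_fin]
  have hgm : Measurable (fun x : Fin m → ℝ => ∫⁻ y : Fin m ⊕ Fin q → ℝ,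
      Ff Ψ κ t (m + 2) B (y, x)) :=
    ((mFf Ψ κ t (m + 2) B hBm).comp measurable_swap).lintegral_prod_right'
  refine le_trans ?_ (mul_meas_ge_le_lintegral hgm (volume B))
  refine mul_le_mul_right (measure_mono ?_) _
  rintro x ⟨a₀, ha₀, hx⟩
  rw [mem_ofPred_eq]
  set Ux : Set (Fin m ⊕ Fin q → ℝ) := {y | (y, x) ∈ Uf Ψ κ t (m + 2) B} with hUx
  have hUxm : MeasurableSet Ux := measurable_prodMk_right (mUf Ψ κ t (m + 2) B hBm)
  have h1 : B ⊆ (fun y => Af Ψ κ t (y, x)) '' Ux := by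
    intro α hα
    have hG0 : ∑ l, eval ((fun l => emb q (t l) x) l + a₀) (Ψ l) ≤ ((m + 1 : ℕ) : ℝ) := by
      calc ∑ l, eval ((fun l => emb q (t l) x) l + a₀) (Ψ l) ≤ ∑ l : Fin (m + 1), (1 : ℝ) :=
            Finset.sum_le_sum fun l _ => hx l
        _ = ((m + 1 : ℕ) : ℝ) := by simp
    obtain ⟨a, ha, ha'⟩ := exists_crit Ψ h0 κ r R hκ hr (by rw [hcard]; exact hκR)
      (by rw [hcard]; exact hrR) (by rw [hcard]; exact hrκ) (fun l => emb q (t l) x) a₀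
      ha₀ hG0 α (hB α hα)
    refine ⟨a, ⟨?_, ?_⟩, ha⟩
    · have h2 : ((m + 1 : ℕ) : ℝ) + 1 = m + 2 := by push_cast; ring
      rw [h2] at ha'
      exact ha'
    · have h2 : Af Ψ κ t (a, x) = α := ha
      rw [h2]
      exact hα
  have h2 : volume B ≤ ∫⁻ a in Ux, ENNReal.ofReal |(mclm (MAf Ψ κ t (a, x))).det| := by
    refine (measure_mono h1).trans ?_
    refine addHaar_image_le_lintegral_abs_det_fderiv volume hUxm
      (f' := fun a => mclm (MAf Ψ κ t (a, x))) ?_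
    intro a _
    exact (Phi_hasFDerivAt Ψ κ (fun l => emb q (t l) x) (fun _ => 1) 0 1 a).hasFDerivWithinAt
  refine h2.trans (le_of_eq ?_)
  rw [← lintegral_indicator hUxm]
  refine lintegral_congr fun a => ?_
  by_cases ha : a ∈ Ux
  · rw [indicator_of_mem ha, mclm_det]
    have h3 : Ff Ψ κ t (m + 2) B (a, x) = ENNReal.ofReal |(MAf Ψ κ t (a, x)).det| :=
      indicator_of_mem (show (a, x) ∈ Uf Ψ κ t (m + 2) B from ha) _
    exact h3.symm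
  · rw [indicator_of_notMem ha]
    have h3 : Ff Ψ κ t (m + 2) B (a, x) = 0 :=
      indicator_of_notMem (show (a, x) ∉ Uf Ψ κ t (m + 2) B from ha) _
    exact h3.symm

/-- step 2 -/
theorem step2 (Ψ : Fin (m + 1) → MvPolynomial (Fin m ⊕ Fin q) ℝ) (κ : ℝ)
    (t : Fin (m + 1) → ℝ) (ht : Function.Injective t) (c : ℝ) (B : Set (Fin m ⊕ Fin q → ℝ))
    (hB : MeasurableSet B) :
    ∫⁻ x : Fin m → ℝ, ∫⁻ a : Fin m ⊕ Fin q → ℝ, Ff Ψ κ t c B (a, x) ≤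
      ∑ k, ENNReal.ofReal (wgt t k) *
        ∫⁻ x : Fin m → ℝ, ∫⁻ a : Fin m ⊕ Fin q → ℝ, Fu Ψ κ t c B (t k) (a, x) := by
  calc ∫⁻ x : Fin m → ℝ, ∫⁻ a : Fin m ⊕ Fin q → ℝ, Ff Ψ κ t c B (a, x) ≤
        ∫⁻ x : Fin m → ℝ, ∫⁻ a : Fin m ⊕ Fin q → ℝ,
          ∑ k, ENNReal.ofReal (wgt t k) * Fu Ψ κ t c B (t k) (a, x) :=
        lintegral_mono fun x => lintegral_mono fun a => Ff_le Ψ κ t ht c B (a, x)
    _ = ∫⁻ x : Fin m → ℝ, ∑ k, ENNReal.ofReal (wgt t k) *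
          ∫⁻ a : Fin m ⊕ Fin q → ℝ, Fu Ψ κ t c B (t k) (a, x) := by
        refine lintegral_congr fun x => ?_
        have hm : ∀ k : Fin (m + 1), Measurable fun a : Fin m ⊕ Fin q → ℝ =>
            Fu Ψ κ t c B (t k) (a, x) :=
          fun k => (mFu Ψ κ t c B hB (t k)).comp measurable_prodMk_right
        rw [lintegral_finsetSum]
        · refine Finset.sum_congr rfl fun k _ => ?_
          rw [lintegral_const_mul _ (hm k)]
        · intro k _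
          exact (hm k).const_mul _
    _ = ∑ k, ENNReal.ofReal (wgt t k) *
          ∫⁻ x : Fin m → ℝ, ∫⁻ a : Fin m ⊕ Fin q → ℝ, Fu Ψ κ t c B (t k) (a, x) := by
        have hgm : ∀ k : Fin (m + 1), Measurable (fun x : Fin m → ℝ =>
            ∫⁻ a : Fin m ⊕ Fin q → ℝ, Fu Ψ κ t c B (t k) (a, x)) :=
          fun k => ((mFu Ψ κ t c B hB (t k)).comp measurable_swap).lintegral_prod_right'
        rw [lintegral_finsetSum]
        · refine Finset.sum_congr rfl fun k _ => ?_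
          rw [lintegral_const_mul _ (hgm k)]
        · intro k _
          exact (hgm k).const_mul _

/-- step 3 -/
theorem step3 (d : ℕ) (hd : 1 ≤ d) (Ψ : Fin (m + 1) → MvPolynomial (Fin m ⊕ Fin q) ℝ)
    (hΨ : ∀ l, (Ψ l).totalDegree ≤ d + 1) (h0 : ∀ l P, 0 ≤ eval P (Ψ l)) (κ : ℝ)
    (t : Fin (m + 1) → ℝ) (c : ℝ) (B : Set (Fin m ⊕ Fin q → ℝ)) (hB : MeasurableSet B)
    (k : Fin (m + 1)) :
    ∫⁻ x : Fin m → ℝ, ∫⁻ y : Fin m ⊕ Fin q → ℝ, Fu Ψ κ t c B (t k) (y, x) ≤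
      volume B * ((((m + q + 1) * d) ^ (m + q) : ℕ) *
        volume {P : Fin m → ℝ | ∃ p : Fin q → ℝ, eval (Sum.elim P p) (Ψ k) ≤ c}) := by
  set f : (Fin m ⊕ Fin q → ℝ) × (Fin m → ℝ) → ℝ≥0∞ := Fu Ψ κ t c B (t k) with hf
  have hfm : Measurable f := mFu Ψ κ t c B hB (t k)
  -- the shear
  have h1 : ∀ x : Fin m → ℝ, ∫⁻ y : Fin m ⊕ Fin q → ℝ, f (y, x) =
      ∫⁻ P : Fin m → ℝ, ∫⁻ p : Fin q → ℝ, f (Sum.elim (P - t k • x) p, x) := by
    intro x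
    have h0 := lint_sum (fun y : Fin m ⊕ Fin q → ℝ => f (y, x))
      (hfm.comp measurable_prodMk_right)
    refine h0.trans ?_
    exact (lintegral_sub_right_eq_self
      (fun a : Fin m → ℝ => ∫⁻ p : Fin q → ℝ, f (Sum.elim a p, x)) (t k • x)).symm
  simp only [h1]
  have hsh3 : Measurable (fun z : ((Fin m → ℝ) × (Fin m → ℝ)) × (Fin q → ℝ) =>
      f (Sum.elim (z.1.2 - t k • z.1.1) z.2, z.1.1)) := by
    refine hfm.comp (Continuous.measurable ?_)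
    refine Continuous.prodMk ?_ (by fun_prop)
    have h2 : Continuous (fun z : ((Fin m → ℝ) × (Fin m → ℝ)) × (Fin q → ℝ) =>
        (z.1.2 - t k • z.1.1, z.2)) := by fun_prop
    exact continuous_elim.comp h2
  have hsh : Measurable (fun z : (Fin m → ℝ) × (Fin m → ℝ) =>
      ∫⁻ p : Fin q → ℝ, f (Sum.elim (z.2 - t k • z.1) p, z.1)) := hsh3.lintegral_prod_right'
  have hsw : ∫⁻ x : Fin m → ℝ, ∫⁻ P : Fin m → ℝ, ∫⁻ p : Fin q → ℝ,
        f (Sum.elim (P - t k • x) p, x) =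
      ∫⁻ P : Fin m → ℝ, ∫⁻ x : Fin m → ℝ, ∫⁻ p : Fin q → ℝ,
        f (Sum.elim (P - t k • x) p, x) :=
    lintegral_lintegral_swap
      (f := fun (x P : Fin m → ℝ) => ∫⁻ p : Fin q → ℝ, f (Sum.elim (P - t k • x) p, x))
      hsh.aemeasurable
  rw [hsw]
  have h2 : ∀ P : Fin m → ℝ, ∫⁻ x : Fin m → ℝ, ∫⁻ p : Fin q → ℝ,
      f (Sum.elim (P - t k • x) p, x) =
      ∫⁻ w : Fin m ⊕ Fin q → ℝ, f (yw (t k) P w, fun i => w (Sum.inl i)) := by
    intro P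
    have h0 := lint_sum (fun w : Fin m ⊕ Fin q → ℝ => f (yw (t k) P w, fun i => w (Sum.inl i)))
      (hfm.comp ((measurable_yw (t k)).comp measurable_prodMk_left))
    exact h0.symm
  simp only [h2]
  set E : Set (Fin m → ℝ) := {P : Fin m → ℝ | ∃ p : Fin q → ℝ, eval (Sum.elim P p) (Ψ k) ≤ c}
    with hE
  have h3 : ∀ P : Fin m → ℝ, ∫⁻ w : Fin m ⊕ Fin q → ℝ,
      f (yw (t k) P w, fun i => w (Sum.inl i)) ≤ (toMeasurable volume E).indicator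
        (fun _ => ((((m + q + 1) * d) ^ (m + q) : ℕ) : ℝ≥0∞) * volume B) P := by
    intro P
    refine (Fu_int d hd Ψ hΨ h0 κ t c B hB k P).trans ?_
    exact indicator_le_indicator_of_subset (subset_toMeasurable volume E)
      (fun _ => zero_le) P
  refine (lintegral_mono h3).trans (le_of_eq ?_)
  rw [lintegral_indicator (measurableSet_toMeasurable volume E), setLIntegral_const,
    measure_toMeasurable]
  ring

/-- the bounded version -/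
theorem wolff_aux (d : ℕ) (hd : 1 ≤ d) (t : Fin (m + 1) → ℝ) (ht : Function.Injective t)
    (Ψ : Fin (m + 1) → MvPolynomial (Fin m ⊕ Fin q) ℝ) (hΨ : ∀ l, (Ψ l).totalDegree ≤ d + 1)
    (h0 : ∀ l P, 0 ≤ eval P (Ψ l)) (R : ℝ) (hR : 0 ≤ R) :
    volume {x : Fin m → ℝ | ∃ y : Fin m ⊕ Fin q → ℝ, (∀ i, |y i| ≤ R) ∧
      ∀ l, eval (emb q (t l) x + y) (Ψ l) ≤ 1} ≤
    ∑ k, ENNReal.ofReal (wgt t k) * ((((m + q + 1) * d) ^ (m + q) : ℕ) *
      volume {P : Fin m → ℝ | ∃ p : Fin q → ℝ, eval (Sum.elim P p) (Ψ k) ≤ m + 2}) := by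
  obtain ⟨κ, r, hκ, hr, hκR, hrR, hrκ⟩ := PWA.params (m + q) R hR
  set B : Set (Fin m ⊕ Fin q → ℝ) := Set.pi univ fun _ => Ioo (-r) r with hB
  have hBm : MeasurableSet B := MeasurableSet.univ_pi fun _ => measurableSet_Ioo
  have hBvol : volume B = ENNReal.ofReal (r - -r) ^ Fintype.card (Fin m ⊕ Fin q) := by
    rw [hB, Real.volume_pi_Ioo, Finset.prod_const, Finset.card_univ]
  have hB0 : volume B ≠ 0 := by
    rw [hBvol]
    exact pow_ne_zero _ (ENNReal.ofReal_pos.2 (by linarith)).ne'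
  have hBt : volume B ≠ ∞ := by
    rw [hBvol]
    exact ENNReal.pow_ne_top ENNReal.ofReal_ne_top
  have hBr : ∀ α ∈ B, ∀ i, |α i| ≤ r := by
    intro α hα i
    have := hα i (mem_univ i)
    exact (abs_lt.2 ⟨this.1, this.2⟩).le
  have h1 := step1 t Ψ h0 κ r R hκ hr.le hκR hrR hrκ B hBm hBr
  have h2 := step2 Ψ κ t ht (m + 2) B hBm
  have h5 : volume B * volume {x : Fin m → ℝ | ∃ y : Fin m ⊕ Fin q → ℝ, (∀ i, |y i| ≤ R) ∧
      ∀ l, eval (emb q (t l) x + y) (Ψ l) ≤ 1} ≤ volume B * ∑ k, ENNReal.ofReal (wgt t k) *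
      ((((m + q + 1) * d) ^ (m + q) : ℕ) *
        volume {P : Fin m → ℝ | ∃ p : Fin q → ℝ, eval (Sum.elim P p) (Ψ k) ≤ m + 2}) := by
    refine h1.trans (h2.trans ?_)
    rw [Finset.mul_sum]
    refine Finset.sum_le_sum fun k _ => ?_
    rw [mul_left_comm]
    exact mul_le_mul_right (step3 d hd Ψ hΨ h0 κ t (m + 2) B hBm k) _
  exact (ENNReal.mul_le_mul_iff_right hB0 hBt).1 h5

/-- **Sharp polynomial Wolff axioms for projections of polynomial sublevel containers.** -/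
theorem wolffE (d : ℕ) (hd : 1 ≤ d) (t : Fin (m + 1) → ℝ) (ht : Function.Injective t)
    (Ψ : Fin (m + 1) → MvPolynomial (Fin m ⊕ Fin q) ℝ) (hΨ : ∀ l, (Ψ l).totalDegree ≤ d + 1)
    (h0 : ∀ l P, 0 ≤ eval P (Ψ l)) :
    volume {x : Fin m → ℝ | ∃ (a : Fin m → ℝ) (p : Fin q → ℝ),
      ∀ l, eval (Sum.elim (a + t l • x) p) (Ψ l) ≤ 1} ≤
    ∑ k, ENNReal.ofReal (wgt t k) * ((((m + q + 1) * d) ^ (m + q) : ℕ) *
      volume {P : Fin m → ℝ | ∃ p : Fin q → ℝ, eval (Sum.elim P p) (Ψ k) ≤ m + 2}) := by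
  set D : ℕ → Set (Fin m → ℝ) := fun n => {x : Fin m → ℝ | ∃ y : Fin m ⊕ Fin q → ℝ,
    (∀ i, |y i| ≤ n) ∧ ∀ l, eval (emb q (t l) x + y) (Ψ l) ≤ 1} with hD
  have hmono : Monotone D := by
    intro n n' hn x hx
    obtain ⟨a, ha, hx⟩ := hx
    exact ⟨a, fun i => (ha i).trans (by exact_mod_cast hn), hx⟩
  have h1 : {x : Fin m → ℝ | ∃ (a : Fin m → ℝ) (p : Fin q → ℝ),
      ∀ l, eval (Sum.elim (a + t l • x) p) (Ψ l) ≤ 1} ⊆ ⋃ n, D n := by
    rintro x ⟨a, p, ha⟩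
    obtain ⟨n, hn⟩ := exists_nat_ge (∑ i, |(Sum.elim a p : Fin m ⊕ Fin q → ℝ) i|)
    rw [mem_iUnion]
    refine ⟨n, Sum.elim a p, fun i => ?_, fun l => ?_⟩
    · exact (Finset.single_le_sum (f := fun i => |(Sum.elim a p : Fin m ⊕ Fin q → ℝ) i|)
        (fun _ _ => abs_nonneg _) (Finset.mem_univ i)).trans hn
    · rw [emb_add]
      exact ha l
  refine (measure_mono h1).trans ?_
  rw [hmono.measure_iUnion]
  refine iSup_le fun n => ?_
  exact wolff_aux d hd t ht Ψ hΨ h0 n (Nat.cast_nonneg n)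

end Pool.Agent.Helper59.PWE
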