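import Pool.Agent.Helper59.PWE.Alg

/-! # Critical point maps of sums of polynomials along lines -/

set_option autoImplicit false
set_option linter.unusedSectionVars false

namespace Pool.Agent.Helper59.PWE

open MvPolynomial MeasureTheory

variable {σ : Type} [Fintype σ] [DecidableEq σ]

/-- derivative of a polynomial function -/
noncomputable def polyD (p : MvPolynomial σ ℝ) (x : σ → ℝ) : (σ → ℝ) →L[ℝ] ℝ :=
  ∑ j, (eval x (pderiv j p)) • ContinuousLinearMap.proj (R := ℝ) (φ := fun _ : σ => ℝ) j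

theorem polyD_apply (p : MvPolynomial σ ℝ) (x y : σ → ℝ) :
    polyD p x y = ∑ j, eval x (pderiv j p) * y j := by
  unfold polyD
  rw [sum_apply]
  rfl

theorem poly_hasFDerivAt (p : MvPolynomial σ ℝ) (x : σ → ℝ) :
    HasFDerivAt (fun y => eval y p) (polyD p x) x := by
  induction p using MvPolynomial.induction_on with
  | C a =>
    have h1 : polyD (C a) x = 0 := by
      ext1 y
      rw [polyD_apply]
      simp
    rw [h1]
    have h2 : (fun y : σ → ℝ => eval y (C a : MvPolynomial σ ℝ)) = fun _ => a := by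
      funext y
      simp
    rw [h2]
    exact hasFDerivAt_const a x
  | add p q hp hq =>
    have h1 : polyD (p + q) x = polyD p x + polyD q x := by
      ext1 y
      rw [add_apply, polyD_apply, polyD_apply, polyD_apply,
        ← Finset.sum_add_distrib]
      refine Finset.sum_congr rfl fun j _ => ?_
      rw [map_add, map_add]
      ring
    rw [h1]
    have h2 : (fun y : σ → ℝ => eval y (p + q)) = fun y => eval y p + eval y q := by
      funext y
      simp
    rw [h2]
    exact hp.add hq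
  | mul_X p i hp =>
    have h2 : (fun y : σ → ℝ => eval y (p * X i)) = fun y => eval y p * y i := by
      funext y
      simp
    rw [h2]
    have h3 : HasFDerivAt (fun y : σ → ℝ => y i)
        (ContinuousLinearMap.proj (R := ℝ) (φ := fun _ : σ => ℝ) i) x :=
      hasFDerivAt_apply i x
    have h4 := hp.mul h3
    have h1 : polyD (p * X i) x = eval x p •
        ContinuousLinearMap.proj (R := ℝ) (φ := fun _ : σ => ℝ) i + x i • polyD p x := by
      ext1 y
      rw [add_apply, smul_apply,
        smul_apply, polyD_apply, polyD_apply]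
      have h5 : ∀ j, eval x (pderiv j (p * X i)) * y j =
          x i * (eval x (pderiv j p) * y j) + eval x p * (if i = j then y j else 0) := by
        intro j
        rw [pderiv_mul, map_add, map_mul, map_mul, eval_X, pderiv_X]
        by_cases hij : i = j
        · rw [if_pos hij, hij, Pi.single_eq_same, map_one]
          ring
        · rw [if_neg hij, Pi.single_eq_of_ne hij, map_zero]
          ring
      simp only [h5, Finset.sum_add_distrib, ← Finset.mul_sum, Finset.sum_ite_eq,
        Finset.mem_univ, if_true, smul_eq_mul]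
      rw [add_comm]
      rfl
    rw [h1]
    exact h4

theorem tdeg_pd (i : σ) (f : MvPolynomial σ ℝ) (N : ℕ) (h : f.totalDegree ≤ N + 1) :
    (pderiv i f).totalDegree ≤ N := by
  have key : ∀ (g : MvPolynomial σ ℝ) (K : ℕ), g.totalDegree ≤ K ↔
      ∀ s : σ →₀ ℕ, K < s.degree → coeff s g = 0 := by
    intro g K
    have hs : ∀ s : σ →₀ ℕ, (s.sum fun _ e => e) = s.degree := by
      intro s
      rw [Finsupp.sum_fintype _ _ (fun _ => rfl), Finsupp.degree_eq_sum]
    constructor
    · intro h s hs'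
      by_contra hne
      have h1 := le_totalDegree (mem_support_iff.2 hne)
      rw [hs] at h1
      omega
    · intro h
      rw [totalDegree]
      apply Finset.sup_le
      intro s hs'
      rw [hs]
      by_contra hlt
      push Not at hlt
      exact (mem_support_iff.1 hs') (h s hlt)
  rw [key] at *
  intro s hs
  rw [coeff_pderiv, h, zero_mul]
  rw [map_add, Finsupp.degree_single]
  omega

/-- substitution of affine polynomials -/
noncomputable def aff (b c : σ → ℝ) (p : MvPolynomial σ ℝ) :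
    MvPolynomial σ ℝ := bind₁ (fun j => C (b j) + C (c j) * X j) p

theorem eval_aff (b c : σ → ℝ) (p : MvPolynomial σ ℝ) (x : σ → ℝ) :
    eval x (aff b c p) = eval (b + c * x) p := by
  unfold aff
  rw [← coe_aeval_eq_eval, RingHom.coe_coe, aeval_bind₁, ← coe_aeval_eq_eval, RingHom.coe_coe]
  congr 2
  funext j
  simp

theorem tdeg_aff (b c : σ → ℝ) (p : MvPolynomial σ ℝ) :
    (aff b c p).totalDegree ≤ p.totalDegree := by
  have h1 : aff b c p = ∑ s ∈ p.support, aff b c (monomial s (coeff s p)) := by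
    unfold aff
    conv_lhs => rw [p.as_sum]
    rw [map_sum]
  rw [h1]
  refine totalDegree_finsetSum_le fun s hs => ?_
  refine le_trans ?_ (le_totalDegree hs)
  unfold aff
  rw [bind₁_monomial]
  refine (totalDegree_mul _ _).trans ?_
  rw [totalDegree_C, zero_add]
  refine (totalDegree_finsetProd _ _).trans ?_
  rw [Finsupp.sum]
  refine Finset.sum_le_sum fun i _ => ?_
  refine (totalDegree_pow _ _).trans ?_
  calc s i * (C (b i) + C (c i) * X i : MvPolynomial σ ℝ).totalDegree ≤ s i * 1 := by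
        refine Nat.mul_le_mul_left _ ((totalDegree_add _ _).trans (max_le ?_ ?_))
        · rw [totalDegree_C]; exact Nat.zero_le _
        · refine (totalDegree_mul _ _).trans ?_
          rw [totalDegree_C, zero_add, totalDegree_X]
    _ = s i := mul_one _

/-- matrices as continuous linear maps -/
noncomputable def mclm (M : Matrix σ σ ℝ) : (σ → ℝ) →L[ℝ] (σ → ℝ) :=
  LinearMap.toContinuousLinearMap (Matrix.toLin' M)

theorem mclm_apply (M : Matrix σ σ ℝ) (x : σ → ℝ) : mclm M x = M.mulVec x := rfl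

theorem mclm_det (M : Matrix σ σ ℝ) : (mclm M).det = M.det := by
  unfold mclm
  rw [ContinuousLinearMap.det, LinearMap.coe_toContinuousLinearMap, LinearMap.det_toLin']

theorem mclm_add (M N : Matrix σ σ ℝ) : mclm (M + N) = mclm M + mclm N := by
  ext1 x
  rw [add_apply, mclm_apply, mclm_apply, mclm_apply, Matrix.add_mulVec]

theorem mclm_smul (c : ℝ) (M : Matrix σ σ ℝ) : mclm (c • M) = c • mclm M := by
  ext1 x
  rw [smul_apply, mclm_apply, mclm_apply, Matrix.smul_mulVec]

theorem mclm_one : mclm (1 : Matrix σ σ ℝ) = ContinuousLinearMap.id ℝ _ := by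
  ext1 x
  rw [mclm_apply, Matrix.one_mulVec]
  rfl

theorem mclm_sum {ι : Type} (s : Finset ι) (M : ι → Matrix σ σ ℝ) :
    mclm (∑ i ∈ s, M i) = ∑ i ∈ s, mclm (M i) := by
  classical
  induction s using Finset.induction_on with
  | empty =>
    rw [Finset.sum_empty, Finset.sum_empty]
    ext1 x
    rw [mclm_apply, Matrix.zero_mulVec]
    rfl
  | insert a s ha ih => rw [Finset.sum_insert ha, Finset.sum_insert ha, mclm_add, ih]

/-- gradient -/
noncomputable def grd (p : MvPolynomial σ ℝ) (P : σ → ℝ) : σ → ℝ :=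
  fun i => eval P (pderiv i p)

/-- Hessian -/
noncomputable def hess (p : MvPolynomial σ ℝ) (P : σ → ℝ) :
    Matrix σ σ ℝ :=
  Matrix.of fun i j => eval P (pderiv j (pderiv i p))

theorem grd_hasFDerivAt (p : MvPolynomial σ ℝ) (P : σ → ℝ) :
    HasFDerivAt (grd p) (mclm (hess p P)) P := by
  rw [hasFDerivAt_pi']
  intro i
  have h := poly_hasFDerivAt (pderiv i p) P
  have h2 : (ContinuousLinearMap.proj (R := ℝ) (φ := fun _ : σ => ℝ) i).comp
      (mclm (hess p P)) = polyD (pderiv i p) P := by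
    ext1 y
    rw [polyD_apply]
    rfl
  rw [h2]
  exact h

theorem mclm_mul (M N : Matrix σ σ ℝ) : mclm (M * N) = (mclm M).comp (mclm N) := by
  ext1 x
  rw [ContinuousLinearMap.comp_apply, mclm_apply, mclm_apply, mclm_apply, Matrix.mulVec_mulVec]

theorem diag_hasFDerivAt (b c x : σ → ℝ) :
    HasFDerivAt (fun x => b + c * x) (mclm (Matrix.diagonal c)) x := by
  have h1 : (fun x : σ → ℝ => b + c * x) = fun x => b + mclm (Matrix.diagonal c) x := by
    funext x
    rw [mclm_apply]
    funext i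
    rw [Pi.add_apply, Pi.add_apply, Pi.mul_apply, Matrix.mulVec_diagonal]
  rw [h1]
  exact (mclm (Matrix.diagonal c)).hasFDerivAt.const_add b

theorem grd_aff_hasFDerivAt (p : MvPolynomial σ ℝ) (b c x : σ → ℝ) :
    HasFDerivAt (fun x => grd p (b + c * x)) (mclm (hess p (b + c * x) * Matrix.diagonal c)) x := by
  have h2 := (grd_hasFDerivAt p (b + c * x)).comp x (diag_hasFDerivAt b c x)
  rw [← mclm_mul] at h2
  exact h2

variable {n : ℕ}

/-- the general critical point map -/
noncomputable def Phi (Ψ : Fin n → MvPolynomial σ ℝ) (κ : ℝ) (b : Fin n → σ → ℝ)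
    (c : Fin n → σ → ℝ) (b' c' : σ → ℝ) (x : σ → ℝ) : σ → ℝ :=
  ∑ l, grd (Ψ l) (b l + c l * x) + κ • (b' + c' * x)

/-- its matrix of derivatives -/
noncomputable def PhiM (Ψ : Fin n → MvPolynomial σ ℝ) (κ : ℝ) (b : Fin n → σ → ℝ)
    (c : Fin n → σ → ℝ) (c' : σ → ℝ) (x : σ → ℝ) : Matrix σ σ ℝ :=
  ∑ l, hess (Ψ l) (b l + c l * x) * Matrix.diagonal (c l) + κ • Matrix.diagonal c'

theorem Phi_hasFDerivAt (Ψ : Fin n → MvPolynomial σ ℝ) (κ : ℝ) (b : Fin n → σ → ℝ)
    (c : Fin n → σ → ℝ) (b' c' : σ → ℝ) (x : σ → ℝ) :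
    HasFDerivAt (Phi Ψ κ b c b' c') (mclm (PhiM Ψ κ b c c' x)) x := by
  have h1 : HasFDerivAt (fun x => ∑ l, grd (Ψ l) (b l + c l * x))
      (∑ l, mclm (hess (Ψ l) (b l + c l * x) * Matrix.diagonal (c l))) x := by
    refine HasFDerivAt.fun_sum fun l _ => ?_
    exact grd_aff_hasFDerivAt (Ψ l) (b l) (c l) x
  have h2 : HasFDerivAt (fun x : σ → ℝ => κ • (b' + c' * x))
      (κ • mclm (Matrix.diagonal c')) x := (diag_hasFDerivAt b' c' x).const_smul κ
  have h3 := h1.add h2
  have h4 : ∑ l, mclm (hess (Ψ l) (b l + c l * x) * Matrix.diagonal (c l)) +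
      κ • mclm (Matrix.diagonal c') = mclm (PhiM Ψ κ b c c' x) := by
    unfold PhiM
    rw [mclm_add, mclm_sum, mclm_smul]
  rw [h4] at h3
  exact h3

/-- polynomials representing the critical point map -/
noncomputable def PhiP (Ψ : Fin n → MvPolynomial σ ℝ) (κ : ℝ) (b : Fin n → σ → ℝ)
    (c : Fin n → σ → ℝ) (b' c' : σ → ℝ) (i : σ) : MvPolynomial σ ℝ :=
  ∑ l, aff (b l) (c l) (pderiv i (Ψ l)) + C κ * (C (b' i) + C (c' i) * X i)

theorem eval_PhiP (Ψ : Fin n → MvPolynomial σ ℝ) (κ : ℝ) (b : Fin n → σ → ℝ)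
    (c : Fin n → σ → ℝ) (b' c' : σ → ℝ) (i : σ) (x : σ → ℝ) :
    eval x (PhiP Ψ κ b c b' c' i) = Phi Ψ κ b c b' c' x i := by
  unfold PhiP Phi grd
  rw [map_add, map_sum, Pi.add_apply, Finset.sum_apply]
  congr 1
  · refine Finset.sum_congr rfl fun l _ => ?_
    rw [eval_aff]
  · simp

theorem tdeg_PhiP (Ψ : Fin n → MvPolynomial σ ℝ) (κ : ℝ) (b : Fin n → σ → ℝ)
    (c : Fin n → σ → ℝ) (b' c' : σ → ℝ) (i : σ) (d : ℕ) (hd : 1 ≤ d)
    (hΨ : ∀ l, (Ψ l).totalDegree ≤ d + 1) :
    (PhiP Ψ κ b c b' c' i).totalDegree ≤ d := by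
  unfold PhiP
  refine (totalDegree_add _ _).trans (max_le ?_ ?_)
  · refine totalDegree_finsetSum_le fun l _ => ?_
    exact (tdeg_aff _ _ _).trans (tdeg_pd i (Ψ l) d (hΨ l))
  · refine (totalDegree_mul _ _).trans ?_
    rw [totalDegree_C, zero_add]
    refine (totalDegree_add _ _).trans (max_le ?_ ?_)
    · rw [totalDegree_C]; exact Nat.zero_le _
    · refine (totalDegree_mul _ _).trans ?_
      rw [totalDegree_C, zero_add, totalDegree_X]
      exact hd

end Pool.Agent.Helper59.PWE
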