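import Pool.Agent.Helper59.PWE.Crit
import Pool.Agent.Helper59.PWE.Area

/-! # Steps for the sharp polynomial Wolff axioms with existential quantifiers -/

set_option autoImplicit false

namespace Pool.Agent.Helper59.PWE

open MvPolynomial MeasureTheory Set
open scoped ENNReal

section gen
variable {σ : Type}

theorem continuous_hess (p : MvPolynomial σ ℝ) : Continuous (hess p) := by
  refine continuous_matrix fun i j => ?_
  exact MvPolynomial.continuous_eval _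

theorem continuous_grd (p : MvPolynomial σ ℝ) : Continuous (grd p) := by
  refine continuous_pi fun i => ?_
  exact MvPolynomial.continuous_eval _
end gen

variable {m q n : ℕ}

/-- weights -/
noncomputable def wgt (t : Fin (m + 1) → ℝ) (k : Fin (m + 1)) : ℝ :=
  |∏ j ∈ Finset.univ.erase k, (t k - t j)|⁻¹

theorem wgt_nonneg (t : Fin (m + 1) → ℝ) (k : Fin (m + 1)) : 0 ≤ wgt t k :=
  inv_nonneg.2 (abs_nonneg _)

/-- embedding of a direction -/
def emb (q : ℕ) (s : ℝ) (x : Fin m → ℝ) : Fin m ⊕ Fin q → ℝ := Sum.elim (s • x) 0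

theorem continuous_emb (s : ℝ) : Continuous (emb (m := m) q s) := by
  refine continuous_pi fun i => ?_
  rcases i with i | i
  · exact (continuous_apply i).const_smul s
  · exact continuous_const

theorem continuous_elim : Continuous (fun z : (Fin m → ℝ) × (Fin q → ℝ) =>
    (Sum.elim z.1 z.2 : Fin m ⊕ Fin q → ℝ)) := by
  refine continuous_pi fun i => ?_
  rcases i with i | i
  · exact (continuous_apply i).comp continuous_fst
  · exact (continuous_apply i).comp continuous_snd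

/-- Fubini for `Fin m ⊕ Fin q` -/
theorem lint_sum (f : (Fin m ⊕ Fin q → ℝ) → ℝ≥0∞) (hf : Measurable f) :
    ∫⁻ y, f y = ∫⁻ a : Fin m → ℝ, ∫⁻ p : Fin q → ℝ, f (Sum.elim a p) := by
  have e := volume_measurePreserving_sumPiEquivProdPi_symm
    (fun _ : Fin m ⊕ Fin q => ℝ)
  rw [← e.lintegral_comp hf]
  have h1 : ∀ z : (Fin m → ℝ) × (Fin q → ℝ),
      (MeasurableEquiv.sumPiEquivProdPi (fun _ : Fin m ⊕ Fin q => ℝ)).symm z =
        Sum.elim z.1 z.2 := by
    intro z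
    funext i
    rcases i with i | i <;> rfl
  have h2 : ∫⁻ z : (Fin m → ℝ) × (Fin q → ℝ),
      f ((MeasurableEquiv.sumPiEquivProdPi (fun _ : Fin m ⊕ Fin q => ℝ)).symm z) =
      ∫⁻ z : (Fin m → ℝ) × (Fin q → ℝ), f (Sum.elim z.1 z.2) := by
    refine lintegral_congr fun z => ?_
    rw [h1]
  refine h2.trans ?_
  exact lintegral_prod _ (hf.comp continuous_elim.measurable).aemeasurable

noncomputable def Gf (Ψ : Fin n → MvPolynomial (Fin m ⊕ Fin q) ℝ) (t : Fin n → ℝ)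
    (z : (Fin m ⊕ Fin q → ℝ) × (Fin m → ℝ)) : ℝ := ∑ l, eval (emb q (t l) z.2 + z.1) (Ψ l)

noncomputable def Af (Ψ : Fin n → MvPolynomial (Fin m ⊕ Fin q) ℝ) (κ : ℝ) (t : Fin n → ℝ)
    (z : (Fin m ⊕ Fin q → ℝ) × (Fin m → ℝ)) : Fin m ⊕ Fin q → ℝ :=
  Phi Ψ κ (fun l => emb q (t l) z.2) (fun _ => 1) 0 1 z.1

noncomputable def MAf (Ψ : Fin n → MvPolynomial (Fin m ⊕ Fin q) ℝ) (κ : ℝ) (t : Fin n → ℝ)
    (z : (Fin m ⊕ Fin q → ℝ) × (Fin m → ℝ)) : Matrix (Fin m ⊕ Fin q) (Fin m ⊕ Fin q) ℝ :=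
  PhiM Ψ κ (fun l => emb q (t l) z.2) (fun _ => 1) 1 z.1

noncomputable def MXf (Ψ : Fin n → MvPolynomial (Fin m ⊕ Fin q) ℝ) (t : Fin n → ℝ)
    (z : (Fin m ⊕ Fin q → ℝ) × (Fin m → ℝ)) : Matrix (Fin m ⊕ Fin q) (Fin m ⊕ Fin q) ℝ :=
  ∑ l, t l • hess (Ψ l) (emb q (t l) z.2 + z.1)

theorem cpt (s : ℝ) : Continuous fun z : (Fin m ⊕ Fin q → ℝ) × (Fin m → ℝ) =>
    emb q s z.2 + z.1 :=
  ((continuous_emb s).comp continuous_snd).add continuous_fst

theorem cGf (Ψ : Fin n → MvPolynomial (Fin m ⊕ Fin q) ℝ) (t : Fin n → ℝ) :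
    Continuous (Gf Ψ t) := by
  unfold Gf
  refine continuous_finsetSum _ fun l _ => ?_
  exact (MvPolynomial.continuous_eval (Ψ l)).comp (cpt (t l))

theorem cAf (Ψ : Fin n → MvPolynomial (Fin m ⊕ Fin q) ℝ) (κ : ℝ) (t : Fin n → ℝ) :
    Continuous (Af Ψ κ t) := by
  unfold Af Phi
  simp only [one_mul, zero_add]
  refine Continuous.add ?_ (continuous_fst.const_smul κ)
  refine continuous_finsetSum _ fun l _ => ?_
  exact (continuous_grd (Ψ l)).comp (cpt (t l))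

theorem cMAf (Ψ : Fin n → MvPolynomial (Fin m ⊕ Fin q) ℝ) (κ : ℝ) (t : Fin n → ℝ) :
    Continuous (MAf Ψ κ t) := by
  unfold MAf PhiM
  simp only [one_mul]
  refine Continuous.add ?_ continuous_const
  refine continuous_finsetSum _ fun l _ => ?_
  have h : Continuous fun z : (Fin m ⊕ Fin q → ℝ) × (Fin m → ℝ) =>
      hess (Ψ l) (emb q (t l) z.2 + z.1) := (continuous_hess (Ψ l)).comp (cpt (t l))
  exact h.matrix_mul continuous_const

theorem cMXf (Ψ : Fin n → MvPolynomial (Fin m ⊕ Fin q) ℝ) (t : Fin n → ℝ) :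
    Continuous (MXf Ψ t) := by
  unfold MXf
  refine continuous_finsetSum _ fun l _ => ?_
  have h : Continuous fun z : (Fin m ⊕ Fin q → ℝ) × (Fin m → ℝ) =>
      hess (Ψ l) (emb q (t l) z.2 + z.1) := (continuous_hess (Ψ l)).comp (cpt (t l))
  exact h.const_smul (t l)

theorem cMU (u : ℝ) : Continuous fun z : Matrix (Fin m ⊕ Fin q) (Fin m ⊕ Fin q) ℝ ×
    Matrix (Fin m ⊕ Fin q) (Fin m ⊕ Fin q) ℝ => MU z.1 z.2 u := by
  refine continuous_matrix fun i j => ?_
  rcases j with j | j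
  · have h1 : Continuous fun z : Matrix (Fin m ⊕ Fin q) (Fin m ⊕ Fin q) ℝ ×
        Matrix (Fin m ⊕ Fin q) (Fin m ⊕ Fin q) ℝ => z.2 i (Sum.inl j) - u * z.1 i (Sum.inl j) :=
      (continuous_snd.matrix_elem i (Sum.inl j)).sub
        (continuous_const.mul (continuous_fst.matrix_elem i (Sum.inl j)))
    exact h1
  · have h1 : Continuous fun z : Matrix (Fin m ⊕ Fin q) (Fin m ⊕ Fin q) ℝ ×
        Matrix (Fin m ⊕ Fin q) (Fin m ⊕ Fin q) ℝ => z.1 i (Sum.inr j) :=
      continuous_fst.matrix_elem i (Sum.inr j)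
    exact h1

/-- the base point -/
def bP (q : ℕ) (P : Fin m → ℝ) : Fin m ⊕ Fin q → ℝ := Sum.elim P 0

/-- the coefficients -/
def cc (q : ℕ) (m : ℕ) (s : ℝ) : Fin m ⊕ Fin q → ℝ := Sum.elim (fun _ => s) 1

/-- the point `y` in terms of `P`, `w = (x, p)` -/
def yw (u : ℝ) (P : Fin m → ℝ) (w : Fin m ⊕ Fin q → ℝ) : Fin m ⊕ Fin q → ℝ :=
  Sum.elim (P - u • (fun i => w (Sum.inl i))) (fun i => w (Sum.inr i))

theorem pt_eq (s u : ℝ) (P : Fin m → ℝ) (w : Fin m ⊕ Fin q → ℝ) :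
    emb q s (fun i => w (Sum.inl i)) + yw u P w = bP q P + cc q m (s - u) * w := by
  funext i
  rcases i with i | i
  · simp only [Pi.add_apply, Pi.mul_apply, emb, yw, bP, cc, Sum.elim_inl, Pi.smul_apply,
      Pi.sub_apply, smul_eq_mul]
    ring
  · simp only [Pi.add_apply, Pi.mul_apply, emb, yw, bP, cc, Sum.elim_inr, Pi.zero_apply,
      Pi.one_apply]
    ring

theorem yw_eq (u : ℝ) (P : Fin m → ℝ) (w : Fin m ⊕ Fin q → ℝ) :
    yw u P w = bP q P + cc q m (-u) * w := by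
  funext i
  rcases i with i | i
  · simp only [Pi.add_apply, Pi.mul_apply, yw, bP, cc, Sum.elim_inl, Pi.smul_apply,
      Pi.sub_apply, smul_eq_mul]
    ring
  · simp only [Pi.add_apply, Pi.mul_apply, yw, bP, cc, Sum.elim_inr, Pi.zero_apply,
      Pi.one_apply]
    ring

theorem Af_shift (Ψ : Fin n → MvPolynomial (Fin m ⊕ Fin q) ℝ) (κ : ℝ) (t : Fin n → ℝ) (u : ℝ)
    (P : Fin m → ℝ) (w : Fin m ⊕ Fin q → ℝ) :
    Af Ψ κ t (yw u P w, fun i => w (Sum.inl i)) =
      Phi Ψ κ (fun _ => bP q P) (fun l => cc q m (t l - u)) (bP q P) (cc q m (-u)) w := by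
  unfold Af Phi
  congr 1
  · refine Finset.sum_congr rfl fun l _ => ?_
    rw [one_mul, pt_eq]
  · rw [zero_add, one_mul, yw_eq]

theorem Mf_shift (Ψ : Fin n → MvPolynomial (Fin m ⊕ Fin q) ℝ) (κ : ℝ) (t : Fin n → ℝ) (u : ℝ)
    (P : Fin m → ℝ) (w : Fin m ⊕ Fin q → ℝ) :
    MU (MAf Ψ κ t (yw u P w, fun i => w (Sum.inl i)))
      (MXf Ψ t (yw u P w, fun i => w (Sum.inl i))) u =
      PhiM Ψ κ (fun _ => bP q P) (fun l => cc q m (t l - u)) (cc q m (-u)) w := by
  have h1 : ∀ i j, MXf Ψ t (yw u P w, fun i => w (Sum.inl i)) i j =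
      ∑ l, t l * hess (Ψ l) (bP q P + cc q m (t l - u) * w) i j := by
    intro i j
    unfold MXf
    rw [Matrix.sum_apply]
    refine Finset.sum_congr rfl fun l _ => ?_
    rw [pt_eq, Matrix.smul_apply, smul_eq_mul]
  have h2 : ∀ i j, MAf Ψ κ t (yw u P w, fun i => w (Sum.inl i)) i j =
      ∑ l, hess (Ψ l) (bP q P + cc q m (t l - u) * w) i j +
        κ * (Matrix.diagonal (1 : Fin m ⊕ Fin q → ℝ) i j) := by
    intro i j
    unfold MAf PhiM
    rw [Matrix.add_apply, Matrix.sum_apply, Matrix.smul_apply, smul_eq_mul]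
    congr 1
    refine Finset.sum_congr rfl fun l _ => ?_
    rw [Matrix.mul_diagonal, one_mul, pt_eq]
    exact mul_one _
  have h3 : ∀ i j, PhiM Ψ κ (fun _ => bP q P) (fun l => cc q m (t l - u)) (cc q m (-u)) w i j =
      ∑ l, hess (Ψ l) (bP q P + cc q m (t l - u) * w) i j * cc q m (t l - u) j +
        κ * (Matrix.diagonal (cc q m (-u)) i j) := by
    intro i j
    unfold PhiM
    rw [Matrix.add_apply, Matrix.sum_apply, Matrix.smul_apply, smul_eq_mul]
    congr 1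
    refine Finset.sum_congr rfl fun l _ => ?_
    rw [Matrix.mul_diagonal]
  ext i j
  rw [h3]
  unfold MU
  rcases j with j | j
  · simp only [Matrix.of_apply, Sum.elim_inl, h1, h2]
    have h4 : Matrix.diagonal (cc q m (-u)) i (Sum.inl j) =
        (-u) * Matrix.diagonal (1 : Fin m ⊕ Fin q → ℝ) i (Sum.inl j) := by
      by_cases hij : i = Sum.inl j
      · rw [hij, Matrix.diagonal_apply_eq, Matrix.diagonal_apply_eq]
        simp [cc]
      · rw [Matrix.diagonal_apply_ne _ hij, Matrix.diagonal_apply_ne _ hij, mul_zero]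
    rw [h4]
    have h5 : ∀ l, cc q m (t l - u) (Sum.inl j) = t l - u := fun l => rfl
    simp only [h5, mul_sub, Finset.sum_sub_distrib]
    rw [mul_add, Finset.mul_sum]
    have h6 : ∑ l, t l * hess (Ψ l) (bP q P + cc q m (t l - u) * w) i (Sum.inl j) =
        ∑ l, hess (Ψ l) (bP q P + cc q m (t l - u) * w) i (Sum.inl j) * t l :=
      Finset.sum_congr rfl fun l _ => mul_comm _ _
    have h7 : ∑ l, u * hess (Ψ l) (bP q P + cc q m (t l - u) * w) i (Sum.inl j) =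
        ∑ l, hess (Ψ l) (bP q P + cc q m (t l - u) * w) i (Sum.inl j) * u :=
      Finset.sum_congr rfl fun l _ => mul_comm _ _
    rw [h6, h7]
    ring
  · simp only [Matrix.of_apply, Sum.elim_inr, h2]
    have h4 : Matrix.diagonal (cc q m (-u)) i (Sum.inr j) =
        Matrix.diagonal (1 : Fin m ⊕ Fin q → ℝ) i (Sum.inr j) := by
      by_cases hij : i = Sum.inr j
      · rw [hij, Matrix.diagonal_apply_eq, Matrix.diagonal_apply_eq]
        simp [cc]
      · rw [Matrix.diagonal_apply_ne _ hij, Matrix.diagonal_apply_ne _ hij]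
    have h5 : ∀ l, cc q m (t l - u) (Sum.inr j) = 1 := fun l => rfl
    rw [h4]
    simp only [h5, mul_one]

/-- the parameter set -/
def Uf (Ψ : Fin n → MvPolynomial (Fin m ⊕ Fin q) ℝ) (κ : ℝ) (t : Fin n → ℝ) (c : ℝ)
    (B : Set (Fin m ⊕ Fin q → ℝ)) : Set ((Fin m ⊕ Fin q → ℝ) × (Fin m → ℝ)) :=
  {z | Gf Ψ t z ≤ c ∧ Af Ψ κ t z ∈ B}

theorem mUf (Ψ : Fin n → MvPolynomial (Fin m ⊕ Fin q) ℝ) (κ : ℝ) (t : Fin n → ℝ) (c : ℝ)
    (B : Set (Fin m ⊕ Fin q → ℝ)) (hB : MeasurableSet B) : MeasurableSet (Uf Ψ κ t c B) :=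
  (measurableSet_le (cGf Ψ t).measurable measurable_const).inter ((cAf Ψ κ t).measurable hB)

/-- the integrand at infinity -/
noncomputable def Ff (Ψ : Fin n → MvPolynomial (Fin m ⊕ Fin q) ℝ) (κ : ℝ) (t : Fin n → ℝ)
    (c : ℝ) (B : Set (Fin m ⊕ Fin q → ℝ)) : (Fin m ⊕ Fin q → ℝ) × (Fin m → ℝ) → ℝ≥0∞ :=
  (Uf Ψ κ t c B).indicator fun z => ENNReal.ofReal |(MAf Ψ κ t z).det|

/-- the integrand at time `u` -/
noncomputable def Fu (Ψ : Fin n → MvPolynomial (Fin m ⊕ Fin q) ℝ) (κ : ℝ) (t : Fin n → ℝ)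
    (c : ℝ) (B : Set (Fin m ⊕ Fin q → ℝ)) (u : ℝ) :
    (Fin m ⊕ Fin q → ℝ) × (Fin m → ℝ) → ℝ≥0∞ :=
  (Uf Ψ κ t c B).indicator fun z => ENNReal.ofReal |(MU (MAf Ψ κ t z) (MXf Ψ t z) u).det|

theorem mFf (Ψ : Fin n → MvPolynomial (Fin m ⊕ Fin q) ℝ) (κ : ℝ) (t : Fin n → ℝ) (c : ℝ)
    (B : Set (Fin m ⊕ Fin q → ℝ)) (hB : MeasurableSet B) : Measurable (Ff Ψ κ t c B) :=
  Measurable.indicator ((cMAf Ψ κ t).matrix_det.abs.measurable).ennreal_ofReal
    (mUf Ψ κ t c B hB)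

theorem mFu (Ψ : Fin n → MvPolynomial (Fin m ⊕ Fin q) ℝ) (κ : ℝ) (t : Fin n → ℝ) (c : ℝ)
    (B : Set (Fin m ⊕ Fin q → ℝ)) (hB : MeasurableSet B) (u : ℝ) :
    Measurable (Fu Ψ κ t c B u) :=
  Measurable.indicator
    (((cMU u).comp ((cMAf Ψ κ t).prodMk (cMXf Ψ t))).matrix_det.abs.measurable).ennreal_ofReal
    (mUf Ψ κ t c B hB)

/-- step 2: Lagrange -/
theorem Ff_le (Ψ : Fin (m + 1) → MvPolynomial (Fin m ⊕ Fin q) ℝ) (κ : ℝ)
    (t : Fin (m + 1) → ℝ) (ht : Function.Injective t) (c : ℝ) (B : Set (Fin m ⊕ Fin q → ℝ))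
    (z : (Fin m ⊕ Fin q → ℝ) × (Fin m → ℝ)) :
    Ff Ψ κ t c B z ≤ ∑ k, ENNReal.ofReal (wgt t k) * Fu Ψ κ t c B (t k) z := by
  by_cases hz : z ∈ Uf Ψ κ t c B
  · have h2 : Ff Ψ κ t c B z = ENNReal.ofReal |(MAf Ψ κ t z).det| := indicator_of_mem hz _
    have h3 : ∀ k, Fu Ψ κ t c B (t k) z =
        ENNReal.ofReal |(MU (MAf Ψ κ t z) (MXf Ψ t z) (t k)).det| :=
      fun k => indicator_of_mem hz _
    rw [h2]
    simp only [h3]
    have h4 := det_lagrange t ht (MAf Ψ κ t z) (MXf Ψ t z)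
    have h6 : ∀ k, ENNReal.ofReal (wgt t k) *
        ENNReal.ofReal |(MU (MAf Ψ κ t z) (MXf Ψ t z) (t k)).det| =
        ENNReal.ofReal (wgt t k * |(MU (MAf Ψ κ t z) (MXf Ψ t z) (t k)).det|) :=
      fun k => (ENNReal.ofReal_mul (wgt_nonneg t k)).symm
    simp only [h6]
    rw [← ENNReal.ofReal_sum_of_nonneg]
    · exact ENNReal.ofReal_le_ofReal h4
    · intro k _
      exact mul_nonneg (wgt_nonneg t k) (abs_nonneg _)
  · have h2 : Ff Ψ κ t c B z = 0 := indicator_of_notMem hz _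
    rw [h2]
    exact zero_le

theorem measurable_yw (u : ℝ) : Measurable (fun z : (Fin m → ℝ) × (Fin m ⊕ Fin q → ℝ) =>
    (yw u z.1 z.2, fun i => z.2 (Sum.inl i))) := by
  refine Continuous.measurable ?_
  refine Continuous.prodMk ?_ ?_
  · refine continuous_pi fun i => ?_
    rcases i with i | i
    · have h : Continuous fun z : (Fin m → ℝ) × (Fin m ⊕ Fin q → ℝ) =>
        z.1 i - u * z.2 (Sum.inl i) := by fun_prop
      exact h
    · have h : Continuous fun z : (Fin m → ℝ) × (Fin m ⊕ Fin q → ℝ) => z.2 (Sum.inr i) := by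
        fun_prop
      exact h
  · fun_prop

/-- step 3: one time -/
theorem Fu_int (d : ℕ) (hd : 1 ≤ d) (Ψ : Fin n → MvPolynomial (Fin m ⊕ Fin q) ℝ)
    (hΨ : ∀ l, (Ψ l).totalDegree ≤ d + 1) (h0 : ∀ l P, 0 ≤ eval P (Ψ l)) (κ : ℝ)
    (t : Fin n → ℝ) (c : ℝ) (B : Set (Fin m ⊕ Fin q → ℝ)) (hB : MeasurableSet B) (k : Fin n)
    (P : Fin m → ℝ) :
    ∫⁻ w : Fin m ⊕ Fin q → ℝ, Fu Ψ κ t c B (t k) (yw (t k) P w, fun i => w (Sum.inl i)) ≤
      {P : Fin m → ℝ | ∃ p : Fin q → ℝ, eval (Sum.elim P p) (Ψ k) ≤ c}.indicator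
        (fun _ => ((((m + q + 1) * d) ^ (m + q) : ℕ) : ℝ≥0∞) * volume B) P := by
  classical
  set VP : Set (Fin m ⊕ Fin q → ℝ) :=
    {w | (yw (t k) P w, fun i => w (Sum.inl i)) ∈ Uf Ψ κ t c B} with hVP
  have hVPm : MeasurableSet VP :=
    ((measurable_yw (t k)).comp measurable_prodMk_left) (mUf Ψ κ t c B hB)
  have h3 : ∫⁻ w : Fin m ⊕ Fin q → ℝ,
      Fu Ψ κ t c B (t k) (yw (t k) P w, fun i => w (Sum.inl i)) =
      ∫⁻ w in VP, ENNReal.ofReal
        |(mclm (PhiM Ψ κ (fun _ => bP q P) (fun l => cc q m (t l - t k))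
          (cc q m (-(t k))) w)).det| := by
    rw [← lintegral_indicator hVPm]
    refine lintegral_congr fun w => ?_
    by_cases hx : w ∈ VP
    · have h4 : Fu Ψ κ t c B (t k) (yw (t k) P w, fun i => w (Sum.inl i)) = ENNReal.ofReal
          |(MU (MAf Ψ κ t (yw (t k) P w, fun i => w (Sum.inl i)))
            (MXf Ψ t (yw (t k) P w, fun i => w (Sum.inl i))) (t k)).det| :=
        indicator_of_mem
          (show (yw (t k) P w, fun i => w (Sum.inl i)) ∈ Uf Ψ κ t c B from hx) _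
      rw [h4, indicator_of_mem hx, mclm_det, Mf_shift]
    · have h4 : Fu Ψ κ t c B (t k) (yw (t k) P w, fun i => w (Sum.inl i)) = 0 :=
        indicator_of_notMem
          (show (yw (t k) P w, fun i => w (Sum.inl i)) ∉ Uf Ψ κ t c B from hx) _
      rw [h4, indicator_of_notMem hx]
  rw [h3]
  by_cases hP : ∃ p : Fin q → ℝ, eval (Sum.elim P p) (Ψ k) ≤ c
  · rw [indicator_of_mem (show P ∈ {P : Fin m → ℝ | ∃ p : Fin q → ℝ,
      eval (Sum.elim P p) (Ψ k) ≤ c} from hP)]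
    have hcard : Fintype.card (Fin m ⊕ Fin q) = m + q := by
      rw [Fintype.card_sum, Fintype.card_fin, Fintype.card_fin]
    refine area_mult (Phi Ψ κ (fun _ => bP q P) (fun l => cc q m (t l - t k)) (bP q P)
        (cc q m (-(t k))))
      (fun w => mclm (PhiM Ψ κ (fun _ => bP q P) (fun l => cc q m (t l - t k))
        (cc q m (-(t k))) w))
      (fun w => Phi_hasFDerivAt Ψ κ _ _ _ _ w) ?_ (((m + q + 1) * d) ^ (m + q)) ?_ VP hVPm B
      hB ?_
    · simp only [mclm_det]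
      have cPM : Continuous (fun w : Fin m ⊕ Fin q → ℝ =>
          PhiM Ψ κ (fun _ => bP q P) (fun l => cc q m (t l - t k)) (cc q m (-(t k))) w) := by
        unfold PhiM
        refine Continuous.add ?_ continuous_const
        refine continuous_finsetSum _ fun l _ => ?_
        have h : Continuous fun w : Fin m ⊕ Fin q → ℝ =>
            hess (Ψ l) (bP q P + cc q m (t l - t k) * w) :=
          (continuous_hess (Ψ l)).comp (by fun_prop)
        exact h.matrix_mul continuous_const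
      exact cPM.matrix_det.measurable
    · have h4 := multiplicity hd (PhiP Ψ κ (fun _ => bP q P) (fun l => cc q m (t l - t k))
        (bP q P) (cc q m (-(t k)))) (fun i => tdeg_PhiP Ψ κ _ _ _ _ i d hd hΨ)
      rw [hcard] at h4
      filter_upwards [h4] with α hα S hS
      refine hα S fun x hx i => ?_
      rw [eval_PhiP, hS x hx]
    · intro w hw
      rw [← Af_shift]
      exact hw.2
  · have h4 : VP = ∅ := by
      rw [eq_empty_iff_forall_notMem]
      intro w hw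
      apply hP
      have h5 : Gf Ψ t (yw (t k) P w, fun i => w (Sum.inl i)) ≤ c := hw.1
      refine ⟨fun i => w (Sum.inr i), le_trans ?_ h5⟩
      have h6 : eval (emb q (t k) (fun i => w (Sum.inl i)) + yw (t k) P w) (Ψ k) ≤
          Gf Ψ t (yw (t k) P w, fun i => w (Sum.inl i)) :=
        Finset.single_le_sum
          (f := fun l => eval (emb q (t l) (fun i => w (Sum.inl i)) + yw (t k) P w) (Ψ l))
          (fun l _ => h0 l _) (Finset.mem_univ k)
      have h7 : emb q (t k) (fun i => w (Sum.inl i)) + yw (t k) P w =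
          Sum.elim P (fun i => w (Sum.inr i)) := by
        funext i
        rcases i with i | i
        · simp [emb, yw]
        · simp [emb, yw]
      rwa [h7] at h6
    rw [h4, Measure.restrict_empty, lintegral_zero_measure]
    exact zero_le

end Pool.Agent.Helper59.PWE
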